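import Pool.Agent.H92.RI6

open Set Filter Topology MeasureTheory Metric Pool.Agent.H92.RI

namespace Pool.Agent.Results.MP_260507_an.Input

theorem result {C A N M W : Type} [Fintype C] [DecidableEq C] [Fintype A]
    [NormedAddCommGroup W] [NormedSpace ℝ W] [FiniteDimensional ℝ W]
    (G : Net C A N M) (V : N → Submodule ℝ W) (hV : ∀ n, V n ≠ ⊥)
    (f : St G V → St G V) (hf : ContDiff ℝ 1 f) (hA : Adm G V f)
    (x : ℝ → St G V) (T : ℝ) (hx : HypOrbit f x T) (c d : C) (θ : ℝ)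
    (hR : Rigid G V f x T fun y T' => ∀ t, (y t c : W) = y (t + θ * T' / T) d) :
    G.τ c = G.τ d ∧ ∀ m : M,
      Nat.card {e : A // G.hd e = c ∧ G.σ e = m} = Nat.card {e : A // G.hd e = d ∧ G.σ e = m} := by
  have hT := hx.1
  obtain ⟨K, hK, δ0, hδ0, hR⟩ := hR
  obtain ⟨S, Cc, L, h⟩ := exists_sys hf hx (𝒜 := SAdm G V) SAdm.zero
    (fun p q ε hp hq => hp.add (hq.smul ε)) (fun p hp => hp.contDiff) hK
    (δ := min δ0 (δ0 / T)) (by positivity)
  have rel : ∀ p u l, S p u l → ∀ s, (u s c : W) = u (s + θ) d := by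
    intro p u l hS s
    have l0 := (h.lam _ _ _ hS).2
    have := rigid_state hT (min_le_left _ _) ((le_div_iff₀ hT).1 (min_le_right _ _)) h hR hS (s * l)
    simp only at this
    rwa [show s * l / l = s by field_simp,
      show (s * l + θ * (l * T) / T) / l = s + θ by field_simp] at this
  have main : G.τ c = G.τ d ∧ Nonempty (G.Iso c d) := by
    obtain ⟨p, u, l, s0, hS, hb⟩ := balanced hV hf hA h
    have huc : Continuous u :=
      continuous_iff_continuousAt.2 fun t => (h.ode _ _ _ hS t).continuousAt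
    by_cases hc : ∀ a b, (u a c : W) = u b c
    · have : (u s0 c : W) = u s0 d := by
        rw [hc s0 (s0 - θ), rel p u l hS, sub_add_cancel]
      obtain ⟨r1, -, β, -⟩ := hb c d this
      exact ⟨r1, ⟨β⟩⟩
    · push Not at hc
      obtain ⟨a, b, hab⟩ := hc
      obtain ⟨s1, -, hna⟩ := exists_nonatom huc isPreconnected_univ (mem_univ a) (mem_univ b) hab
      by_contra hcon
      refine bump_contra h hV hS one_pos c c s1 (s1 + θ) (Or.inl rfl) hna (co G V d) (co_le d)
        one_pos (fun q hq => Eventually.of_forall fun z => ?_) fun p' u' l' hS' _ _ =>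
        vel_eq h hS' (Eventually.of_forall (rel p' u' l' hS'))
      by_contra hne
      obtain ⟨r1, β, -⟩ := hq d z hne
      exact hcon ⟨r1, ⟨β⟩⟩
  obtain ⟨h1, ⟨β⟩⟩ := main
  refine ⟨h1, fun m => Nat.card_congr ⟨fun e => ⟨(β.1 ⟨e.1, e.2.1⟩).1, (β.1 ⟨e.1, e.2.1⟩).2,
    (β.2 _).trans e.2.2⟩, fun e => ⟨(β.1.symm ⟨e.1, e.2.1⟩).1, (β.1.symm ⟨e.1, e.2.1⟩).2,
    (β.sym.2 _).trans e.2.2⟩, fun e => ?_, fun e => ?_⟩⟩
  · apply Subtype.ext
    simp
  · apply Subtype.ext
    simp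

end Pool.Agent.Results.MP_260507_an.Input
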